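import Pool.Agent.Run7.h723.OG.Iface

/-! Piece LOWC of project OG (helper723, MP_e4b521_co), proof by helper111. -/

set_option autoImplicit false

open Pool.H723.OG

namespace Run7.h111.OG

open Classical in
theorem t_LOWC (hC : S_COST) : S_LOWC := by
  intro V _ _ G hpos hadj hone
  apply hC V G (low G 2)ᶜ
  -- neighbours of a low vertex are all in D
  have hnb : ∀ v, v ∈ low G 2 → nb G (low G 2)ᶜ v = dg G v := by
    intro v hv
    unfold nb dg
    congr 1
    ext u
    simp only [Finset.mem_filter, Finset.mem_compl, Finset.mem_univ, true_and]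
    constructor
    · rintro ⟨-, h⟩
      exact h
    · intro h
      refine ⟨fun hu => ?_, h⟩
      simp only [low, Finset.mem_filter, Finset.mem_univ, true_and] at hu hv
      exact hadj u v h hu hv
  have hpos' : ∀ v, 0 < dg G v := by
    intro v
    obtain ⟨u, hu⟩ := hpos v
    unfold dg
    exact Finset.card_pos.2 ⟨u, by simp [hu.symm]⟩
  have h0 : lev G (low G 2)ᶜ 0 = ∅ := by
    ext v
    simp only [lev, Finset.mem_filter, Finset.mem_univ, true_and, Finset.mem_compl, not_not,
      Finset.notMem_empty, iff_false, not_and]
    intro hv h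
    rw [hnb v hv] at h
    exact absurd h (hpos' v).ne'
  have h1 : (lev G (low G 2)ᶜ 1).card ≤ 1 := by
    rw [Finset.card_le_one]
    intro x hx y hy
    simp only [lev, Finset.mem_filter, Finset.mem_univ, true_and, Finset.mem_compl, not_not] at hx hy
    rw [hnb x hx.1] at hx
    rw [hnb y hy.1] at hy
    by_contra hne
    exact hone x y hne hx.2 hy.2
  have h2 : (low G 2)ᶜ.card = Fintype.card V - (low G 2).card := Finset.card_compl _
  unfold cost2
  rw [h0, h2, Finset.card_empty]
  omega

end Run7.h111.OG
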