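import Pool.Agent.Run7.h723.OG.Iface

/-! Piece STAR of project OG (helper723, MP_e4b521_co), proof by helper111. -/

set_option autoImplicit false

open Pool.H723.OG

namespace Run7.h111.OG

/-- a star forest on the vertex set `S` -/
def SF {V : Type} [DecidableEq V] (G : SimpleGraph V) (S : Finset V) : Prop :=
  ∃ (D P W : Finset V) (π m : V → V),
      (∀ v, v ∈ S ↔ v ∈ D ∨ v ∈ P ∨ v ∈ W) ∧ Disjoint D P ∧ Disjoint D W ∧ Disjoint P W ∧
      (∀ v ∈ P, π v ∈ D ∧ G.Adj (π v) v) ∧
      (∀ w ∈ W, m w ∈ W ∧ m (m w) = w ∧ G.Adj w (m w)) ∧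
      2 * D.card ≤ P.card

theorem SF_add {V : Type} [DecidableEq V] {G : SimpleGraph V} {S : Finset V} (h : SF G S) (c : V)
    (L : Finset V) (hL : L.Nonempty) (hadj : ∀ l ∈ L, G.Adj c l) (hcS : c ∉ S)
    (hLS : Disjoint L S) : SF G (insert c L ∪ S) := by
  obtain ⟨D, P, W, π, m, hS, hDP, hDW, hPW, hπ, hm, hcard⟩ := h
  have hcL : c ∉ L := fun h => (hadj c h).ne rfl
  have hcD : c ∉ D := fun h => hcS ((hS c).2 (Or.inl h))
  have hcP : c ∉ P := fun h => hcS ((hS c).2 (Or.inr (Or.inl h)))
  have hcW : c ∉ W := fun h => hcS ((hS c).2 (Or.inr (Or.inr h)))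
  have hLD : ∀ l ∈ L, l ∉ D := fun l hl h =>
    (Finset.disjoint_left.1 hLS hl) ((hS l).2 (Or.inl h))
  have hLP : ∀ l ∈ L, l ∉ P := fun l hl h =>
    (Finset.disjoint_left.1 hLS hl) ((hS l).2 (Or.inr (Or.inl h)))
  have hLW : ∀ l ∈ L, l ∉ W := fun l hl h =>
    (Finset.disjoint_left.1 hLS hl) ((hS l).2 (Or.inr (Or.inr h)))
  rcases Nat.lt_or_ge L.card 2 with hlt | hge
  · have h1 : L.card = 1 := by
      have := hL.card_pos
      omega
    obtain ⟨l, rfl⟩ := Finset.card_eq_one.1 h1
    have hl : l ∈ ({l} : Finset V) := Finset.mem_singleton_self l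
    have hlD := hLD l hl
    have hlP := hLP l hl
    have hlW := hLW l hl
    have hcl : G.Adj c l := hadj l hl
    have hne : l ≠ c := hcl.ne'
    refine ⟨D, P, insert c (insert l W), π,
      fun v => if v = c then l else if v = l then c else m v, ?_, hDP, ?_, ?_, hπ, ?_, hcard⟩
    · intro v
      simp only [Finset.mem_union, Finset.mem_insert, Finset.mem_singleton, hS v]
      tauto
    · rw [Finset.disjoint_insert_right, Finset.disjoint_insert_right]
      exact ⟨hcD, hlD, hDW⟩
    · rw [Finset.disjoint_insert_right, Finset.disjoint_insert_right]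
      exact ⟨hcP, hlP, hPW⟩
    · intro x hx
      by_cases hxc : x = c
      · subst hxc
        refine ⟨?_, ?_, ?_⟩
        · simp
        · simp [hne]
        · simpa using hcl
      · by_cases hxl : x = l
        · subst hxl
          refine ⟨?_, ?_, ?_⟩
          · simp [hne]
          · simp [hne]
          · simpa [hne] using hcl.symm
        · have hxW : x ∈ W := by
            simpa [hxc, hxl] using hx
          obtain ⟨h1, h2, h3⟩ := hm x hxW
          have h4 : m x ≠ c := fun h => hcW (h ▸ h1)
          have h5 : m x ≠ l := fun h => hlW (h ▸ h1)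
          refine ⟨?_, ?_, ?_⟩
          · simp [hxc, hxl, h1]
          · simp [hxc, hxl, h4, h5, h2]
          · simpa [hxc, hxl] using h3
  · refine ⟨insert c D, P ∪ L, W, fun v => if v ∈ L then c else π v, m, ?_, ?_, ?_, ?_, ?_, hm, ?_⟩
    · intro v
      simp only [Finset.mem_union, Finset.mem_insert, hS v]
      tauto
    · rw [Finset.disjoint_insert_left, Finset.disjoint_union_right]
      refine ⟨?_, hDP, ?_⟩
      · simp [hcP, hcL]
      · rw [Finset.disjoint_left]
        intro x hx hx'
        exact hLD x hx' hx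
    · rw [Finset.disjoint_insert_left]
      exact ⟨hcW, hDW⟩
    · rw [Finset.disjoint_union_left]
      refine ⟨hPW, ?_⟩
      rw [Finset.disjoint_left]
      exact hLW
    · intro x hx
      by_cases hxL : x ∈ L
      · simp only [hxL, if_true]
        exact ⟨Finset.mem_insert_self _ _, hadj x hxL⟩
      · have hxP : x ∈ P := by
          simpa [hxL] using hx
        simp only [hxL, if_false]
        exact ⟨Finset.mem_insert_of_mem (hπ x hxP).1, (hπ x hxP).2⟩
    · have h1 : (P ∪ L).card = P.card + L.card := by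
        apply Finset.card_union_of_disjoint
        rw [Finset.disjoint_left]
        intro x hx hx'
        exact hLP x hx' hx
      rw [Finset.card_insert_of_notMem hcD, h1]
      omega

open Classical in
theorem SF_all {V : Type} [DecidableEq V] (G : SimpleGraph V) (n : ℕ) :
    ∀ S : Finset V, S.card = n → (∀ v ∈ S, ∃ u ∈ S, G.Adj v u) → SF G S := by
  induction n using Nat.strong_induction_on with
  | _ n ih =>
    intro S hS hiso
    rcases S.eq_empty_or_nonempty with rfl | ⟨u, hu⟩
    · exact ⟨∅, ∅, ∅, id, id, by simp, by simp, by simp, by simp, by simp, by simp, by simp⟩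
    obtain ⟨v, hv, huv⟩ := hiso u hu
    have hne : u ≠ v := huv.ne
    -- the vertices isolated after removal of `u` and `v`
    obtain ⟨I, hI⟩ : ∃ I : Finset V, ∀ x, x ∈ I ↔ (x ∈ S ∧ x ≠ u ∧ x ≠ v) ∧
        ∀ y, (y ∈ S ∧ y ≠ u ∧ y ≠ v) → ¬ G.Adj x y :=
      ⟨S.filter (fun x => (x ≠ u ∧ x ≠ v) ∧ ∀ y, (y ∈ S ∧ y ≠ u ∧ y ≠ v) → ¬ G.Adj x y), by
        intro x
        simp only [Finset.mem_filter]
        tauto⟩
    obtain ⟨S', hS'⟩ : ∃ S' : Finset V, ∀ x, x ∈ S' ↔ (x ∈ S ∧ x ≠ u ∧ x ≠ v) ∧ x ∉ I :=
      ⟨S.filter (fun x => (x ≠ u ∧ x ≠ v) ∧ x ∉ I), by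
        intro x
        simp only [Finset.mem_filter]
        tauto⟩
    have huS' : u ∉ S' := fun h => ((hS' u).1 h).1.2.1 rfl
    have hvS' : v ∉ S' := fun h => ((hS' v).1 h).1.2.2 rfl
    have hlt : S'.card < n := by
      rw [← hS]
      apply Finset.card_lt_card
      refine ⟨fun x hx => ((hS' x).1 hx).1.1, fun h => huS' (h hu)⟩
    have hSF : SF G S' := by
      apply ih _ hlt S' rfl
      intro x hx
      obtain ⟨hx1, hx2⟩ := (hS' x).1 hx
      have h3 : ∃ y, (y ∈ S ∧ y ≠ u ∧ y ≠ v) ∧ G.Adj x y := by
        by_contra hcon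
        push Not at hcon
        exact hx2 ((hI x).2 ⟨hx1, hcon⟩)
      obtain ⟨y, hy, hxy⟩ := h3
      refine ⟨y, (hS' y).2 ⟨hy, fun hyI => ?_⟩, hxy⟩
      exact ((hI y).1 hyI).2 x hx1 hxy.symm
    have hIadj : ∀ x ∈ I, G.Adj u x ∨ G.Adj v x := by
      intro x hx
      obtain ⟨hx1, hx2⟩ := (hI x).1 hx
      obtain ⟨y, hy, hxy⟩ := hiso x hx1.1
      by_cases hyu : y = u
      · subst hyu; exact Or.inl hxy.symm
      · by_cases hyv : y = v
        · subst hyv; exact Or.inr hxy.symm
        · exact absurd hxy (hx2 y ⟨hy, hyu, hyv⟩)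
    have hIS' : Disjoint I S' := by
      rw [Finset.disjoint_left]
      intro x hx hx'
      exact ((hS' x).1 hx').2 hx
    have huI : u ∉ I := fun h => ((hI u).1 h).1.2.1 rfl
    have hvI : v ∉ I := fun h => ((hI v).1 h).1.2.2 rfl
    have hcov : ∀ x, x ∈ S ↔ x = u ∨ x = v ∨ x ∈ I ∨ x ∈ S' := by
      intro x
      constructor
      · intro hx
        by_cases h1 : x = u
        · exact Or.inl h1
        by_cases h2 : x = v
        · exact Or.inr (Or.inl h2)
        by_cases h3 : x ∈ I
        · exact Or.inr (Or.inr (Or.inl h3))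
        · exact Or.inr (Or.inr (Or.inr ((hS' x).2 ⟨⟨hx, h1, h2⟩, h3⟩)))
      · rintro (rfl | rfl | h | h)
        · exact hu
        · exact hv
        · exact ((hI x).1 h).1.1
        · exact ((hS' x).1 h).1.1
    by_cases hIv : ∀ x ∈ I, G.Adj u x
    · have h1 : SF G (insert u (insert v I) ∪ S') := by
        apply SF_add hSF u (insert v I) ⟨v, Finset.mem_insert_self _ _⟩
        · intro l hl
          rcases Finset.mem_insert.1 hl with rfl | hl
          · exact huv
          · exact hIv l hl
        · exact huS'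
        · rw [Finset.disjoint_insert_left]
          exact ⟨hvS', hIS'⟩
      have h2 : insert u (insert v I) ∪ S' = S := by
        ext x
        simp only [Finset.mem_union, Finset.mem_insert, hcov x]
        tauto
      rwa [h2] at h1
    by_cases hIu : ∀ x ∈ I, ¬ G.Adj u x
    · have h1 : SF G (insert v (insert u I) ∪ S') := by
        apply SF_add hSF v (insert u I) ⟨u, Finset.mem_insert_self _ _⟩
        · intro l hl
          rcases Finset.mem_insert.1 hl with rfl | hl
          · exact huv.symm
          · exact (hIadj l hl).resolve_left (hIu l hl)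
        · exact hvS'
        · rw [Finset.disjoint_insert_left]
          exact ⟨huS', hIS'⟩
      have h2 : insert v (insert u I) ∪ S' = S := by
        ext x
        simp only [Finset.mem_union, Finset.mem_insert, hcov x]
        tauto
      rwa [h2] at h1
    push Not at hIv hIu
    obtain ⟨a, haI, ha⟩ := hIv
    obtain ⟨b, hbI, hb⟩ := hIu
    have h1 : SF G (insert v (I.filter (fun x => ¬ G.Adj u x)) ∪ S') := by
      apply SF_add hSF v
      · exact ⟨a, by simp [haI, ha]⟩
      · intro l hl
        rw [Finset.mem_filter] at hl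
        exact (hIadj l hl.1).resolve_left hl.2
      · exact hvS'
      · exact Finset.disjoint_of_subset_left (Finset.filter_subset _ _) hIS'
    have h2 : SF G (insert u (I.filter (fun x => G.Adj u x)) ∪
        (insert v (I.filter (fun x => ¬ G.Adj u x)) ∪ S')) := by
      apply SF_add h1 u
      · exact ⟨b, by simp [hbI, hb]⟩
      · intro l hl
        rw [Finset.mem_filter] at hl
        exact hl.2
      · simp only [Finset.mem_union, Finset.mem_insert, Finset.mem_filter]
        rintro ((h | h) | h)
        · exact hne h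
        · exact huI h.1
        · exact huS' h
      · rw [Finset.disjoint_left]
        intro x hx hx'
        rw [Finset.mem_filter] at hx
        simp only [Finset.mem_union, Finset.mem_insert, Finset.mem_filter] at hx'
        rcases hx' with (h | h) | h
        · exact hvI (h ▸ hx.1)
        · exact h.2 hx.2
        · exact (Finset.disjoint_left.1 hIS' hx.1) h
    have h3 : insert u (I.filter (fun x => G.Adj u x)) ∪
        (insert v (I.filter (fun x => ¬ G.Adj u x)) ∪ S') = S := by
      ext x
      simp only [Finset.mem_union, Finset.mem_insert, Finset.mem_filter, hcov x]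
      tauto
    rwa [h3] at h2

theorem t_STAR : S_STAR := by
  intro V _ _ G hpos
  obtain ⟨D, P, W, π, m, hS, h⟩ := SF_all G _ (Finset.univ : Finset V) rfl
    (fun v _ => by
      obtain ⟨u, hu⟩ := hpos v
      exact ⟨u, Finset.mem_univ _, hu⟩)
  exact ⟨D, P, W, π, m, fun v => (hS v).1 (Finset.mem_univ v), h⟩

end Run7.h111.OG
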